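import Pool.Agent.Run7.h172.Npp.Stm
import Pool.Agent.Run7.h957.Nls.L
import Pool.Agent.Helper44K9.FU.Chb

/-!
# Project NPP (helper172), piece LD2 (helper811): the intermediate range
-/

set_option autoImplicit false

namespace Pool.Agent.Run7.h811.Npp

open Finset MeasureTheory Filter Topology
open Pool.Agent.Helper44K9.FU (S_CHB)
open Pool.Agent.Run7.h172.Npp

/-- The preimage of a null set in the line. -/
theorem null_pre {E : Set UnitAddCircle} (hE : IsCompact E) (h0 : volume E = 0) :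
    volume {x : ℝ | (x : UnitAddCircle) ∈ E} = 0 := by
  have h1 : {x : ℝ | (x : UnitAddCircle) ∈ E}
      ⊆ ⋃ n : ℤ, ({x : ℝ | (x : UnitAddCircle) ∈ E} ∩ Set.Ioc (n : ℝ) (n + 1)) := by
    intro x hx
    rw [Set.mem_iUnion]
    refine ⟨⌈x⌉ - 1, hx, ?_, ?_⟩
    · push_cast
      linarith [Int.ceil_lt_add_one x]
    · push_cast
      linarith [Int.le_ceil x]
  refine measure_mono_null h1 (measure_iUnion_null fun n => ?_)
  have h2 := (AddCircle.measurePreserving_mk (1 : ℝ) (n : ℝ)).measure_preimage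
    hE.measurableSet.nullMeasurableSet
  rw [h0] at h2
  have h3 : MeasurableSet (QuotientAddGroup.mk ⁻¹' E : Set ℝ) :=
    (AddCircle.measurable_mk' (a := (1 : ℝ))) hE.measurableSet
  rw [Measure.restrict_apply h3] at h2
  exact h2

/-- Few cells of a fine grid meet a compact null set. -/
theorem grid {F : Set ℝ} (hF : IsCompact F) (h0 : volume F = 0) {ω : ℝ} (hω : 0 < ω) :
    ∃ M : ℕ, 1 ≤ M ∧ ∃ I : Finset ℤ, (∀ x ∈ F, ⌊(M : ℝ) * x⌋ ∈ I) ∧ (I.card : ℝ) ≤ ω * M := by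
  have h1 : Tendsto (fun r : ℝ => volume (Metric.cthickening r F)) (𝓝 0) (𝓝 (volume F)) :=
    tendsto_measure_cthickening_of_isCompact hF
  rw [h0] at h1
  have h2 := (h1.comp (tendsto_one_div_add_atTop_nhds_zero_nat (𝕜 := ℝ))).eventually
    (gt_mem_nhds (ENNReal.ofReal_pos.2 hω))
  obtain ⟨m, hm⟩ := h2.exists
  simp only [Function.comp_apply] at hm
  obtain ⟨M, hM⟩ : ∃ M : ℕ, M = m + 1 := ⟨_, rfl⟩
  have hMR : (M : ℝ) = m + 1 := by
    rw [hM]
    push_cast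
    rfl
  rw [← hMR] at hm
  have hM0 : (0 : ℝ) < M := by
    rw [hMR]
    positivity
  obtain ⟨R, hR⟩ := hF.isBounded.exists_norm_le
  have hfin : ((fun x : ℝ => ⌊(M : ℝ) * x⌋) '' F).Finite := by
    refine (Set.finite_Icc ⌊(M : ℝ) * (-R)⌋ ⌊(M : ℝ) * R⌋).subset ?_
    rintro _ ⟨x, hx, rfl⟩
    have h3 := hR x hx
    rw [Real.norm_eq_abs, abs_le] at h3
    exact ⟨Int.floor_le_floor (mul_le_mul_of_nonneg_left h3.1 hM0.le),
      Int.floor_le_floor (mul_le_mul_of_nonneg_left h3.2 hM0.le)⟩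
  refine ⟨M, by omega, hfin.toFinset, fun x hx => ?_, ?_⟩
  · rw [Set.Finite.mem_toFinset]
    exact ⟨x, hx, rfl⟩
  · obtain ⟨I, hI⟩ : ∃ I : Finset ℤ, I = hfin.toFinset := ⟨_, rfl⟩
    rw [← hI]
    have hcell : ∀ i : ℤ, {x : ℝ | ⌊(M : ℝ) * x⌋ = i} = Set.Ico (i / M : ℝ) ((i + 1) / M) := by
      intro i
      ext x
      rw [Set.mem_ofPred_eq, Int.floor_eq_iff, Set.mem_Ico, div_le_iff₀ hM0, lt_div_iff₀ hM0,
        mul_comm]
    have hvol : ∀ i : ℤ, volume {x : ℝ | ⌊(M : ℝ) * x⌋ = i} = ENNReal.ofReal (1 / M) := by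
      intro i
      rw [hcell, Real.volume_Ico]
      congr 1
      ring
    have h3 : volume (⋃ i ∈ I, {x : ℝ | ⌊(M : ℝ) * x⌋ = i}) = (I.card : ENNReal)
        * ENNReal.ofReal (1 / M) := by
      rw [measure_biUnion_finset]
      · rw [Finset.sum_congr rfl fun i _ => hvol i, Finset.sum_const, nsmul_eq_mul]
      · intro i _ j _ hij
        refine Set.disjoint_left.2 fun x hx hx' => hij ?_
        exact hx.symm.trans hx'
      · intro i _
        rw [hcell]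
        exact measurableSet_Ico
    have h4 : (⋃ i ∈ I, {x : ℝ | ⌊(M : ℝ) * x⌋ = i}) ⊆ Metric.cthickening (1 / (M : ℝ)) F := by
      intro y hy
      rw [Set.mem_iUnion₂] at hy
      obtain ⟨i, hi, hy⟩ := hy
      rw [hI, Set.Finite.mem_toFinset] at hi
      obtain ⟨x, hx, hxi⟩ := hi
      refine Metric.mem_cthickening_of_dist_le y x _ _ hx ?_
      have hx' : x ∈ {x : ℝ | ⌊(M : ℝ) * x⌋ = i} := hxi
      rw [hcell] at hy hx'
      rw [Real.dist_eq, abs_le]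
      have e1 : ((i : ℝ) + 1) / M = i / M + 1 / M := by ring
      rw [e1] at hy hx'
      constructor
      · linarith [hy.1, hx'.2]
      · linarith [hy.2, hx'.1]
    have h5 := (h3.symm.le.trans (measure_mono h4)).trans hm.le
    have h6 : (I.card : ENNReal) * ENNReal.ofReal (1 / M) = ENNReal.ofReal (I.card * (1 / M)) := by
      rw [ENNReal.ofReal_mul (by positivity), ENNReal.ofReal_natCast]
    rw [h6, ENNReal.ofReal_le_ofReal_iff hω.le] at h5
    rwa [mul_one_div, div_le_iff₀ hM0] at h5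

theorem pow_sub_ge {x y z : ℝ} {d : ℕ} (hd : 1 ≤ d) (hz : 0 ≤ z) (hzx : z ≤ x) (hxy : x ≤ y) :
    (y - x) * z ^ (d - 1) ≤ y ^ d - x ^ d := by
  obtain ⟨e, rfl⟩ := Nat.exists_eq_add_of_le hd
  rw [Nat.add_sub_cancel_left, add_comm 1 e, pow_succ, pow_succ]
  have h1 : x ^ e ≤ y ^ e := pow_le_pow_left₀ (hz.trans hzx) hxy e
  have h2 : z ^ e ≤ x ^ e := pow_le_pow_left₀ hz hzx e
  have h3 : (y - x) * z ^ e ≤ (y - x) * x ^ e := mul_le_mul_of_nonneg_left h2 (by linarith)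
  have h4 : 0 ≤ (y ^ e - x ^ e) * y := mul_nonneg (by linarith) ((hz.trans hzx).trans hxy)
  nlinarith

/-- The primes of a block in a short interval. -/
theorem block {d k : ℕ} (hd : 1 ≤ d) {l θ : ℝ} (hl : 0 < l) (h1 : l ≤ |θ| * ((2 : ℝ) ^ k) ^ d)
    {ε' : ℝ} (hε : 0 ≤ ε')
    (hPI : ∀ u v : ℕ, u ≤ v → v ≤ 2 ^ (k + 1) →
      ∑ n ∈ Ioc u v, ArithmeticFunction.vonMangoldt n ≤ ((v : ℝ) - u) + ε' * (2 ^ (k + 1) : ℕ))
    {S : Finset ℕ} (hS : S ⊆ QB k) {a w : ℝ} (hw : 0 ≤ w)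
    (hJ : ∀ p ∈ S, a ≤ (p : ℝ) ^ d * θ ∧ (p : ℝ) ^ d * θ ≤ a + w) :
    ∑ p ∈ S, Real.log p ≤ w * 2 ^ k / l + 1 + ε' * 2 ^ (k + 1) := by
  have mQB : ∀ p, p ∈ QB k → (2 ^ k < p ∧ p ≤ 2 ^ (k + 1)) ∧ p.Prime := by
    intro p hp
    unfold QB at hp
    rwa [Finset.mem_filter, Finset.mem_Ioc] at hp
  rcases S.eq_empty_or_nonempty with rfl | hne
  · rw [Finset.sum_empty]
    positivity
  obtain ⟨u, hu⟩ : ∃ u, u = S.min' hne := ⟨_, rfl⟩
  obtain ⟨v, hv⟩ : ∃ v, v = S.max' hne := ⟨_, rfl⟩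
  have huS : u ∈ S := by
    rw [hu]
    exact S.min'_mem hne
  have hvS : v ∈ S := by
    rw [hv]
    exact S.max'_mem hne
  have huv : u ≤ v := by
    rw [hv]
    exact S.le_max' u huS
  have bu := mQB u (hS huS)
  have bv := mQB v (hS hvS)
  have hu1 : 1 ≤ u := bu.2.one_lt.le
  have h2 := hPI (u - 1) v (by omega) bv.1.2
  have h3 : ∑ p ∈ S, Real.log p ≤ ∑ n ∈ Ioc (u - 1) v, ArithmeticFunction.vonMangoldt n := by
    have h4 : ∑ p ∈ S, Real.log p = ∑ p ∈ S, ArithmeticFunction.vonMangoldt p :=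
      Finset.sum_congr rfl fun p hp =>
        (ArithmeticFunction.vonMangoldt_apply_prime (mQB p (hS hp)).2).symm
    rw [h4]
    refine Finset.sum_le_sum_of_subset_of_nonneg (fun p hp => ?_) fun _ _ _ =>
      ArithmeticFunction.vonMangoldt_nonneg
    rw [Finset.mem_Ioc]
    constructor
    · have : u ≤ p := by
        rw [hu]
        exact S.min'_le p hp
      omega
    · rw [hv]
      exact S.le_max' p hp
  have h4 : ((v : ℝ) - (u - 1 : ℕ)) = (v - u) + 1 := by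
    rw [Nat.cast_sub hu1]
    push_cast
    ring
  rw [h4] at h2
  push_cast at h2
  have h5 : (v : ℝ) - u ≤ w * 2 ^ k / l := by
    have hkR : (0 : ℝ) < 2 ^ k := by positivity
    have huR : (2 : ℝ) ^ k ≤ u := by exact_mod_cast bu.1.1.le
    have huvR : (u : ℝ) ≤ v := by exact_mod_cast huv
    have h6 := pow_sub_ge hd hkR.le huR huvR
    have h7 : ((v : ℝ) ^ d - (u : ℝ) ^ d) * |θ| ≤ w := by
      have h8 : ((v : ℝ) ^ d - (u : ℝ) ^ d) * |θ| = |(v : ℝ) ^ d * θ - (u : ℝ) ^ d * θ| := by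
        have h9 : 0 ≤ (v : ℝ) ^ d - (u : ℝ) ^ d := by
          have := pow_le_pow_left₀ (by positivity : (0 : ℝ) ≤ u) huvR d
          linarith
        rw [← sub_mul, abs_mul, abs_of_nonneg h9]
      rw [h8, abs_le]
      have g1 := hJ u huS
      have g2 := hJ v hvS
      constructor <;> linarith [g1.1, g1.2, g2.1, g2.2]
    have h8 : l ≤ |θ| * (2 ^ k) ^ (d - 1) * 2 ^ k := by
      have e1 : |θ| * ((2 : ℝ) ^ k) ^ (d - 1) * 2 ^ k = |θ| * ((2 : ℝ) ^ k) ^ d := by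
        obtain ⟨e, rfl⟩ := Nat.exists_eq_add_of_le hd
        rw [Nat.add_sub_cancel_left, add_comm 1 e, pow_succ]
        ring
      rw [e1]
      exact h1
    rw [le_div_iff₀ hl]
    have h9 : ((v : ℝ) - u) * l ≤ ((v : ℝ) - u) * (|θ| * (2 ^ k) ^ (d - 1) * 2 ^ k) :=
      mul_le_mul_of_nonneg_left h8 (by linarith)
    have h10 : ((v : ℝ) - u) * (2 ^ k) ^ (d - 1) * |θ| ≤ w :=
      (mul_le_mul_of_nonneg_right h6 (abs_nonneg _)).trans h7
    have h11 := mul_le_mul_of_nonneg_right h10 hkR.le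
    calc ((v : ℝ) - u) * l ≤ _ := h9
      _ = ((v : ℝ) - u) * (2 ^ k) ^ (d - 1) * |θ| * 2 ^ k := by ring
      _ ≤ _ := h11
  linarith

theorem exists_int {x e : ℝ} (h : ‖(x : UnitAddCircle)‖ ≤ e) : ∃ k : ℤ, |x - k| ≤ e := by
  rw [UnitAddCircle.norm_eq] at h
  exact ⟨round x, h⟩

/-- **Piece LD2.** -/
theorem ld2 : S_LD2 := by
  intro d hd c l Q hc hl E hE h0
  obtain ⟨R, hR⟩ : ∃ R : ℝ, R = 2 ^ d * Q + 1 := ⟨_, rfl⟩
  obtain ⟨F, hF⟩ : ∃ F : Set ℝ, F = {x : ℝ | (x : UnitAddCircle) ∈ E} ∩ Set.Icc (-R) R := ⟨_, rfl⟩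
  have hFc : IsCompact F := by
    rw [hF]
    refine isCompact_Icc.inter_left ?_
    exact hE.isClosed.preimage (AddCircle.continuous_mk' (1 : ℝ))
  have hF0 : volume F = 0 := by
    rw [hF]
    exact measure_mono_null Set.inter_subset_left (null_pre hE h0)
  obtain ⟨⟨b, hb, kb, hbk⟩, -⟩ := Pool.Agent.Helper44K9.FU.chb
  have hlog : 0 < Real.log 2 := Real.log_pos (by norm_num)
  obtain ⟨A, hA⟩ : ∃ A : ℝ, A = c * b * Real.log 2 := ⟨_, rfl⟩
  have hA0 : 0 < A := by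
    rw [hA]
    positivity
  obtain ⟨M, hM1, I, hI, hIc⟩ := grid hFc hF0 (ω := A * l / 9) (by positivity)
  have hM0 : (0 : ℝ) < M := by exact_mod_cast hM1
  obtain ⟨ε', hε'⟩ : ∃ ε' : ℝ, ε' = A / (12 * ((I.card : ℝ) + 1)) := ⟨_, rfl⟩
  have hε0 : 0 < ε' := by
    rw [hε']
    positivity
  obtain ⟨N0, hN0⟩ := Run7.h957.Nls.pi_holds ε' hε0
  obtain ⟨k2, hk2⟩ := exists_nat_ge (6 * (I.card : ℝ) / A)
  refine ⟨1 / M, by positivity, max (max kb 1) (max N0 k2), fun k hk θ h1 h2 W hW hp => ?_⟩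
  have hkb : kb ≤ k := (le_max_left _ _).trans ((le_max_left _ _).trans hk)
  have hk1 : 1 ≤ k := (le_max_right _ _).trans ((le_max_left _ _).trans hk)
  have hkN : N0 ≤ k := (le_max_left _ _).trans ((le_max_right _ _).trans hk)
  have hkk : k2 ≤ k := (le_max_right _ _).trans ((le_max_right _ _).trans hk)
  have h2k : k < 2 ^ k := Nat.lt_two_pow_self
  have mQB : ∀ p, p ∈ QB k → (2 ^ k < p ∧ p ≤ 2 ^ (k + 1)) ∧ p.Prime := by
    intro p hp
    unfold QB at hp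
    rwa [Finset.mem_filter, Finset.mem_Ioc] at hp
  have hPI : ∀ u v : ℕ, u ≤ v → v ≤ 2 ^ (k + 1) →
      ∑ n ∈ Ioc u v, ArithmeticFunction.vonMangoldt n ≤ ((v : ℝ) - u) + ε' * (2 ^ (k + 1) : ℕ) :=
    fun u v huv hv => hN0 (2 ^ (k + 1)) (by
      have : 2 ^ k ≤ 2 ^ (k + 1) := Nat.pow_le_pow_right (by norm_num) (by omega)
      omega) u v huv hv
  -- the cells
  have hcell : ∀ p ∈ W, ∃ i ∈ I, ((i : ℝ) - 1) / M ≤ (p : ℝ) ^ d * θ ∧
      (p : ℝ) ^ d * θ ≤ ((i : ℝ) - 1) / M + 3 / M := by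
    intro p hpW
    obtain ⟨x, hx, hxp⟩ := hp p hpW
    obtain ⟨y, rfl⟩ : ∃ y : ℝ, (y : UnitAddCircle) = x := QuotientAddGroup.mk_surjective x
    rw [← AddCircle.coe_sub] at hxp
    obtain ⟨m, hm⟩ := exists_int hxp
    obtain ⟨z, hz⟩ : ∃ z : ℝ, z = y + m := ⟨_, rfl⟩
    have hzE : (z : UnitAddCircle) ∈ E := by
      have e1 : ((z : ℝ) : UnitAddCircle) = (y : UnitAddCircle) := by
        rw [hz, AddCircle.coe_add]
        have : ((m : ℝ) : UnitAddCircle) = 0 := by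
          rw [AddCircle.coe_eq_zero_iff]
          exact ⟨m, by simp⟩
        rw [this, add_zero]
      rw [e1]
      exact hx
    have hzp : |(p : ℝ) ^ d * θ - z| ≤ 1 / M := by
      rw [hz]
      have : (p : ℝ) ^ d * θ - (y + m) = (p : ℝ) ^ d * θ - y - m := by ring
      rw [this]
      exact hm
    have hM1' : 1 / (M : ℝ) ≤ 1 := by
      rw [div_le_one hM0]
      exact_mod_cast hM1
    have hpθ : |(p : ℝ) ^ d * θ| ≤ 2 ^ d * Q := by
      rw [abs_mul, abs_of_nonneg (by positivity)]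
      have h3 : (p : ℝ) ^ d ≤ (2 * 2 ^ k) ^ d := by
        refine pow_le_pow_left₀ (by positivity) ?_ d
        have := (mQB p (hW hpW)).1.2
        rw [pow_succ] at this
        have h4 : ((p : ℕ) : ℝ) ≤ ((2 ^ k * 2 : ℕ) : ℝ) := by exact_mod_cast this
        push_cast at h4
        linarith
      calc (p : ℝ) ^ d * |θ| ≤ (2 * 2 ^ k) ^ d * |θ| :=
            mul_le_mul_of_nonneg_right h3 (abs_nonneg _)
        _ = 2 ^ d * (|θ| * (2 ^ k) ^ d) := by rw [mul_pow]; ring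
        _ ≤ 2 ^ d * Q := mul_le_mul_of_nonneg_left h2 (by positivity)
    have hzF : z ∈ F := by
      rw [hF]
      refine ⟨hzE, ?_⟩
      rw [abs_le] at hpθ hzp
      rw [hR]
      constructor <;> linarith [hpθ.1, hpθ.2, hzp.1, hzp.2]
    refine ⟨⌊(M : ℝ) * z⌋, hI z hzF, ?_⟩
    obtain ⟨i, hi⟩ : ∃ i : ℤ, i = ⌊(M : ℝ) * z⌋ := ⟨_, rfl⟩
    rw [← hi]
    have g1 : (i : ℝ) ≤ M * z := by
      rw [hi]
      exact Int.floor_le _
    have g2 : (M : ℝ) * z < i + 1 := by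
      rw [hi]
      exact Int.lt_floor_add_one _
    have g3 : (i : ℝ) / M ≤ z := by
      rw [div_le_iff₀ hM0]
      linarith
    have g4 : z ≤ (i : ℝ) / M + 1 / M := by
      rw [← add_div, le_div_iff₀ hM0]
      linarith
    rw [abs_le] at hzp
    have e1 : ((i : ℝ) - 1) / M = i / M - 1 / M := by ring
    have e2 : (3 : ℝ) / M = 1 / M + 1 / M + 1 / M := by ring
    rw [e1, e2]
    constructor <;> linarith [hzp.1, hzp.2]
  choose! ι hι1 hι2 using hcell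
  -- upper bound
  have hup : ∑ p ∈ W, Real.log p ≤ (I.card : ℝ) * (3 / M * 2 ^ k / l + 1 + ε' * 2 ^ (k + 1)) := by
    rw [← Finset.sum_fiberwise_of_maps_to hι1]
    have h3 : ∀ i ∈ I, ∑ p ∈ W with ι p = i, Real.log p
        ≤ 3 / M * 2 ^ k / l + 1 + ε' * 2 ^ (k + 1) := by
      intro i _
      refine block hd hl h1 hε0.le hPI (fun p hp => hW (Finset.mem_filter.1 hp).1)
        (a := ((i : ℝ) - 1) / M) (by positivity) fun p hp => ?_
      obtain ⟨hp1, hp2⟩ := Finset.mem_filter.1 hp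
      have := hι2 p hp1
      rwa [hp2] at this
    refine (Finset.sum_le_sum h3).trans (le_of_eq ?_)
    rw [Finset.sum_const, nsmul_eq_mul]
  -- lower bound
  have hkR : (1 : ℝ) ≤ k := by exact_mod_cast hk1
  have hlow : (W.card : ℝ) * (k * Real.log 2) ≤ ∑ p ∈ W, Real.log p := by
    rw [← nsmul_eq_mul, ← Finset.sum_const]
    refine Finset.sum_le_sum fun p hp => ?_
    rw [← Real.log_pow]
    refine Real.log_le_log (by positivity) ?_
    exact_mod_cast (mQB p (hW hp)).1.1.le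
  have hQB : b * 2 ^ k ≤ k * ((QB k).card : ℝ) := by
    have h3 := hbk k hkb
    have h4 : ∑ p ∈ (Ioc (2 ^ k) (2 ^ (k + 1))).filter Nat.Prime, 1 / (p : ℝ)
        ≤ ((QB k).card : ℝ) * (1 / 2 ^ k) := by
      rw [← nsmul_eq_mul, ← Finset.sum_const]
      refine Finset.sum_le_sum fun p hp => ?_
      refine one_div_le_one_div_of_le (by positivity) ?_
      exact_mod_cast (mQB p hp).1.1.le
    have h5 := h3.trans h4
    rw [mul_one_div, div_le_div_iff₀ (by positivity) (by positivity)] at h5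
    linarith
  -- the end
  have h2kR : (0 : ℝ) < 2 ^ k := by positivity
  have t1 : (I.card : ℝ) * (3 / M * 2 ^ k / l) ≤ A / 3 * 2 ^ k := by
    have h3 : (I.card : ℝ) * (3 / M * 2 ^ k / l) = (I.card : ℝ) * (3 * 2 ^ k / (M * l)) := by
      field_simp
    rw [h3, ← mul_div_assoc, div_le_iff₀ (by positivity)]
    have h4 := mul_le_mul_of_nonneg_right hIc (by positivity : (0 : ℝ) ≤ 3 * 2 ^ k)
    linarith
  have t2 : (I.card : ℝ) ≤ A / 6 * 2 ^ k := by
    rw [div_le_iff₀ hA0] at hk2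
    have h3 : (k2 : ℝ) ≤ 2 ^ k := by
      have : k2 ≤ 2 ^ k := hkk.trans h2k.le
      exact_mod_cast this
    have h4 := mul_le_mul_of_nonneg_right h3 hA0.le
    linarith
  have t3 : (I.card : ℝ) * (ε' * 2 ^ (k + 1)) ≤ A / 6 * 2 ^ k := by
    have h3 : (I.card : ℝ) * ε' ≤ A / 12 := by
      rw [hε', ← mul_div_assoc, div_le_div_iff₀ (by positivity) (by norm_num)]
      nlinarith
    have h4 := mul_le_mul_of_nonneg_right h3 h2kR.le
    rw [pow_succ]
    linarith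
  have t4 : (W.card : ℝ) * (k * Real.log 2) < A * 2 ^ k := by
    have h3 := hlow.trans hup
    have h4 : (I.card : ℝ) * (3 / M * 2 ^ k / l + 1 + ε' * 2 ^ (k + 1))
        = (I.card : ℝ) * (3 / M * 2 ^ k / l) + I.card + (I.card : ℝ) * (ε' * 2 ^ (k + 1)) := by ring
    rw [h4] at h3
    have h5 : 0 < A * 2 ^ k := by positivity
    linarith
  have t5 : A * 2 ^ k ≤ c * ((QB k).card : ℝ) * (k * Real.log 2) := by
    have h3 := mul_le_mul_of_nonneg_left hQB (by positivity : (0 : ℝ) ≤ c * Real.log 2)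
    rw [hA]
    linarith
  exact lt_of_mul_lt_mul_right (t4.trans_le t5) (by positivity)

end Pool.Agent.Run7.h811.Npp
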