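import Pool.Agent.Run7.h172.Npp.Stm

/-!
# Project NPP (helper172), piece RD (helper811): the common root
-/

set_option autoImplicit false

namespace Pool.Agent.Run7.h811.Npp

open Finset
open Pool.Agent.Helper44K9.FU (Rel)
open Pool.Agent.Run7.h172.Npp

theorem int_eq {a b : ℤ} (h : |((a - b : ℤ) : ℝ)| < 1) : a = b := by
  have h1 : |a - b| < 1 := by exact_mod_cast h
  have h2 : a - b = 0 := Int.abs_lt_one_iff.1 h1
  omega

/-- Two rational approximations of the same number. -/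
theorem cross {x e1 e2 : ℝ} {M1 M2 A1 A2 : ℤ} (hM1 : 0 ≤ M1) (hM2 : 0 ≤ M2)
    (h1 : |(M1 : ℝ) * x - A1| ≤ e1) (h2 : |(M2 : ℝ) * x - A2| ≤ e2)
    (h3 : (M2 : ℝ) * e1 + M1 * e2 < 1) : M2 * A1 = M1 * A2 := by
  apply int_eq
  have g1 : (0 : ℝ) ≤ M1 := by exact_mod_cast hM1
  have g2 : (0 : ℝ) ≤ M2 := by exact_mod_cast hM2
  have e : ((M2 * A1 - M1 * A2 : ℤ) : ℝ) = M1 * ((M2 : ℝ) * x - A2) - M2 * ((M1 : ℝ) * x - A1) := by
    push_cast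
    ring
  rw [e]
  refine lt_of_le_of_lt (abs_sub _ _) ?_
  rw [abs_mul, abs_mul, abs_of_nonneg g1, abs_of_nonneg g2]
  have g3 := mul_le_mul_of_nonneg_left h2 g1
  have g4 := mul_le_mul_of_nonneg_left h1 g2
  linarith

theorem abs_mul_le' {a b c d : ℝ} (ha0 : 0 ≤ a) (ha : a ≤ c) (hb : |b| ≤ d) : |a * b| ≤ c * d := by
  rw [abs_mul, abs_of_nonneg ha0]
  exact mul_le_mul ha hb (abs_nonneg _) (ha0.trans ha)

theorem cop_small {p m : ℕ} (hp : p.Prime) (h1 : 1 ≤ m) (h2 : m < p) (d : ℕ) :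
    IsCoprime ((p : ℤ) ^ d) (m : ℤ) := by
  refine IsCoprime.pow_left ?_
  rw [Nat.isCoprime_iff_coprime]
  exact (Nat.Prime.coprime_iff_not_dvd hp).2 fun h => by
    have := Nat.le_of_dvd (by omega) h
    omega

theorem cop_pow {p q : ℕ} (hp : p.Prime) (hq : q.Prime) (hne : p ≠ q) (d : ℕ) :
    IsCoprime ((p : ℤ) ^ d) ((q : ℤ) ^ d) := by
  refine IsCoprime.pow ?_
  rw [Nat.isCoprime_iff_coprime]
  exact (Nat.coprime_primes hp hq).2 hne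

theorem rd : S_RD := by
  intro d K k1 hd hK
  refine ⟨4 * K ^ 4 * (2 ^ k1) ^ (3 * d) + 1, fun h hh k hk hKk α p0 p1 hp0 hp1 hne W hWP h0W
    h1W hWc hrel => ?_⟩
  have mQB : ∀ p, p ∈ QB k → (2 ^ k < p ∧ p ≤ 2 ^ (k + 1)) ∧ p.Prime := by
    intro p hp
    unfold QB at hp
    rwa [Finset.mem_filter, Finset.mem_Ioc] at hp
  have b0 := mQB p0 hp0
  have b1 := mQB p1 hp1
  -- the quantities
  obtain ⟨D, hD⟩ : ∃ D : ℝ, D = ((2 : ℝ) ^ k1) ^ d := ⟨_, rfl⟩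
  have hD1 : 1 ≤ D := by
    rw [hD]
    exact one_le_pow₀ (one_le_pow₀ (by norm_num))
  have hpD : ∀ p, p ∈ QB k → (p : ℝ) ^ d ≤ D := by
    intro p hp
    rw [hD]
    refine pow_le_pow_left₀ (by positivity) ?_ d
    have h1 : p ≤ 2 ^ k1 := (mQB p hp).1.2.trans (Nat.pow_le_pow_right (by norm_num) hk)
    exact_mod_cast h1
  have hp1' : ∀ p, p ∈ QB k → (1 : ℝ) ≤ (p : ℝ) ^ d := by
    intro p hp
    refine one_le_pow₀ ?_
    exact_mod_cast (mQB p hp).2.one_lt.le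
  obtain ⟨κ, hκ⟩ : ∃ κ : ℝ, κ = (K : ℝ) := ⟨_, rfl⟩
  have hκ1 : 1 ≤ κ := by
    rw [hκ]
    exact_mod_cast hK
  obtain ⟨e, he⟩ : ∃ e : ℝ, e = (K : ℝ) / (h : ℝ) ^ d := ⟨_, rfl⟩
  have hh1 : 1 ≤ h := by omega
  have hhR : (1 : ℝ) ≤ h := by exact_mod_cast hh1
  have he0 : 0 ≤ e := by
    rw [he]
    positivity
  have hsm : 4 * κ ^ 3 * D ^ 3 * e < 1 := by
    have h1 : ((4 * K ^ 4 * (2 ^ k1) ^ (3 * d) + 1 : ℕ) : ℝ) ≤ h := by exact_mod_cast hh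
    have h2 : (h : ℝ) ≤ (h : ℝ) ^ d := le_self_pow₀ hhR (by omega)
    have h3 : (D : ℝ) ^ 3 = ((2 : ℝ) ^ k1) ^ (3 * d) := by
      rw [hD, ← pow_mul, mul_comm d 3]
    rw [he, ← hκ, ← mul_div_assoc, div_lt_one (by positivity)]
    push_cast at h1
    rw [← h3, ← hκ] at h1
    have e4 : 4 * κ ^ 3 * D ^ 3 * κ = 4 * κ ^ 4 * D ^ 3 := by ring
    rw [e4]
    linarith
  have hKK : K ^ 2 < 2 ^ k + 1 := by
    have : K ^ 2 ≤ K ^ 3 := Nat.pow_le_pow_right hK (by norm_num)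
    omega
  have hKle : K ≤ K ^ 3 := by
    calc K = K ^ 1 := (pow_one K).symm
      _ ≤ K ^ 3 := Nat.pow_le_pow_right hK (by norm_num)
  choose! m1 hm1 hm1' a1 ha1 using fun p (hp : p ∈ W) => (hrel p hp).1
  choose! m2 hm2 hm2' a2 ha2 using fun p (hp : p ∈ W) => (hrel p hp).2
  rw [← he] at ha1 ha2
  have hm1κ : ∀ p ∈ W, (m1 p : ℝ) ≤ κ := fun p hp => by
    rw [hκ]
    exact_mod_cast hm1' p hp
  have hm2κ : ∀ p ∈ W, (m2 p : ℝ) ≤ κ := fun p hp => by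
    rw [hκ]
    exact_mod_cast hm2' p hp
  obtain ⟨θ, hθ⟩ : ∃ θ : ℝ, θ = (p1 : ℝ) ^ d * α p0 - (p0 : ℝ) ^ d * α p1 := ⟨_, rfl⟩
  -- multiples of `θ` are near integers
  obtain ⟨k', hk'⟩ : ∃ k' : ℕ → ℤ, ∀ p, k' p = (p0 : ℤ) ^ d * m1 p * a2 p
    - (p1 : ℤ) ^ d * m2 p * a1 p := ⟨_, fun _ => rfl⟩
  have hkk : ∀ p ∈ W, |(((m1 p * m2 p : ℕ) : ℤ) * (p : ℤ) ^ d : ℤ) * θ - k' p| ≤ 2 * κ * D * e := by
    intro p hp
    have g1 := ha1 p hp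
    have g2 := ha2 p hp
    have e1 : (((((m1 p * m2 p : ℕ) : ℤ) * (p : ℤ) ^ d : ℤ)) : ℝ) * θ - k' p
        = (p0 : ℝ) ^ d * m1 p * (m2 p * ((p1 : ℝ) ^ d * α p - (p : ℝ) ^ d * α p1) - a2 p)
          - (p1 : ℝ) ^ d * m2 p * (m1 p * ((p0 : ℝ) ^ d * α p - (p : ℝ) ^ d * α p0) - a1 p) := by
      rw [hθ, hk']
      push_cast
      ring
    rw [e1]
    have g3 : (p0 : ℝ) ^ d * m1 p ≤ D * κ :=
      mul_le_mul (hpD p0 hp0) (hm1κ p hp) (by positivity) (by positivity)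
    have g4 : (p1 : ℝ) ^ d * m2 p ≤ D * κ :=
      mul_le_mul (hpD p1 hp1) (hm2κ p hp) (by positivity) (by positivity)
    have g5 := abs_mul_le' (by positivity) g3 g2
    have g6 := abs_mul_le' (by positivity) g4 g1
    refine (abs_sub _ _).trans ((add_le_add g5 g6).trans (le_of_eq ?_))
    ring
  have hmm : ∀ p ∈ W, ((m1 p * m2 p : ℕ) : ℝ) ≤ κ ^ 2 := by
    intro p hp
    push_cast
    rw [sq]
    exact mul_le_mul (hm1κ p hp) (hm2κ p hp) (by positivity) (by positivity)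
  have hmmN : ∀ p ∈ W, 1 ≤ m1 p * m2 p ∧ m1 p * m2 p < 2 ^ k + 1 := by
    intro p hp
    refine ⟨Nat.one_le_iff_ne_zero.2 (mul_ne_zero (by have := hm1 p hp; omega)
      (by have := hm2 p hp; omega)), lt_of_le_of_lt ?_ hKK⟩
    rw [sq]
    exact Nat.mul_le_mul (hm1' p hp) (hm2' p hp)
  -- `θ` itself
  obtain ⟨m0, j, hm01, hm02, hj⟩ : ∃ (m0 : ℕ) (j : ℤ), 1 ≤ m0 ∧ m0 ≤ K ^ 2 ∧
      |(m0 : ℝ) * θ - j| ≤ 2 * κ * D * e := by
    obtain ⟨q, hq, q', hq', hqq⟩ := Finset.one_lt_card.1 (by omega : 1 < W.card)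
    have bq := mQB q (hWP hq)
    have bq' := mQB q' (hWP hq')
    have hcr := cross (by positivity) (by positivity) (hkk q hq) (hkk q' hq') (by
      push_cast
      have g1 := hmm q hq
      have g2 := hmm q' hq'
      push_cast at g1 g2
      have g3 : (m1 q * m2 q : ℝ) * (q : ℝ) ^ d ≤ κ ^ 2 * D :=
        mul_le_mul g1 (hpD q (hWP hq)) (by positivity) (by positivity)
      have g4 : (m1 q' * m2 q' : ℝ) * (q' : ℝ) ^ d ≤ κ ^ 2 * D :=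
        mul_le_mul g2 (hpD q' (hWP hq')) (by positivity) (by positivity)
      have g5 : 0 ≤ 2 * κ * D * e := by positivity
      have g6 := mul_le_mul_of_nonneg_right g3 g5
      have g7 := mul_le_mul_of_nonneg_right g4 g5
      have g8 : κ ^ 2 * D * (2 * κ * D * e) + κ ^ 2 * D * (2 * κ * D * e)
          ≤ 4 * κ ^ 3 * D ^ 3 * e := by
        have : κ ^ 2 * D * (2 * κ * D * e) + κ ^ 2 * D * (2 * κ * D * e)
          = (4 * κ ^ 3 * D ^ 2 * e) * 1 := by ring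
        rw [this]
        have h9 : 4 * κ ^ 3 * D ^ 3 * e = (4 * κ ^ 3 * D ^ 2 * e) * D := by ring
        rw [h9]
        exact mul_le_mul_of_nonneg_left hD1 (by positivity)
      linarith)
    have hdvd : (q : ℤ) ^ d ∣ k' q := by
      have h1 : (q : ℤ) ^ d ∣ (q' : ℤ) ^ d * (((m1 q' * m2 q' : ℕ) : ℤ) * k' q) := by
        refine ⟨((m1 q * m2 q : ℕ) : ℤ) * k' q', ?_⟩
        linear_combination hcr
      have h2 := (cop_pow bq.2 bq'.2 hqq d).dvd_of_dvd_mul_left h1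
      have h3 := hmmN q' hq'
      exact (cop_small bq.2 h3.1 (by omega) d).dvd_of_dvd_mul_left h2
    obtain ⟨j, hj⟩ := hdvd
    refine ⟨m1 q * m2 q, j, (hmmN q hq).1, ?_, ?_⟩
    · rw [sq]
      exact Nat.mul_le_mul (hm1' q hq) (hm2' q hq)
    · have g1 := hkk q hq
      have e1 : ((((m1 q * m2 q : ℕ) : ℤ) * (q : ℤ) ^ d : ℤ) : ℝ) * θ - k' q
          = (q : ℝ) ^ d * (((m1 q * m2 q : ℕ) : ℝ) * θ - j) := by
        rw [hj]
        push_cast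
        ring
      rw [e1, abs_mul, abs_of_nonneg (by positivity : (0 : ℝ) ≤ (q : ℝ) ^ d)] at g1
      refine le_trans ?_ g1
      exact le_mul_of_one_le_left (abs_nonneg _) (hp1' q (hWP hq))
  -- the root
  have hm0p : m0 < p0 := by omega
  have hcop0 : IsCoprime ((p0 : ℤ) ^ d) ((m0 : ℤ) * (p1 : ℤ) ^ d) :=
    (cop_small b0.2 hm01 hm0p d).mul_right (cop_pow b0.2 b1.2 hne d)
  obtain ⟨t, n, hn⟩ : ∃ t n : ℤ, j + m0 * (p1 : ℤ) ^ d * t = (p0 : ℤ) ^ d * n := by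
    obtain ⟨u, v, huv⟩ := hcop0
    refine ⟨-(j * v), j * u, ?_⟩
    linear_combination (-j) * huv
  have hnR : (j : ℝ) + m0 * (p1 : ℝ) ^ d * t = (p0 : ℝ) ^ d * n := by exact_mod_cast hn
  obtain ⟨β, hβ⟩ : ∃ β : ℝ, β = (α p0 + t) / (p0 : ℝ) ^ d := ⟨_, rfl⟩
  have hp0R : (0 : ℝ) < (p0 : ℝ) ^ d := lt_of_lt_of_le one_pos (hp1' p0 hp0)
  have hβ0 : (p0 : ℝ) ^ d * β = α p0 + t := by
    rw [hβ]
    field_simp
  have hβ1 : |(m0 : ℝ) * ((p1 : ℝ) ^ d * β - α p1) - n| ≤ 2 * κ * D * e := by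
    have e1 : (p0 : ℝ) ^ d * ((m0 : ℝ) * ((p1 : ℝ) ^ d * β - α p1) - n) = m0 * θ - j := by
      rw [hθ]
      linear_combination (m0 : ℝ) * (p1 : ℝ) ^ d * hβ0 + hnR
    have g1 : |(p0 : ℝ) ^ d * ((m0 : ℝ) * ((p1 : ℝ) ^ d * β - α p1) - n)| ≤ 2 * κ * D * e := by
      rw [e1]
      exact hj
    rw [abs_mul, abs_of_pos hp0R] at g1
    exact (le_mul_of_one_le_left (abs_nonneg _) (hp1' p0 hp0)).trans g1
  refine ⟨β, fun p hp => ?_⟩
  have bp := mQB p (hWP hp)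
  obtain ⟨x, hx⟩ : ∃ x : ℝ, x = (p : ℝ) ^ d * β - α p := ⟨_, rfl⟩
  have hx0 : |((m1 p * (p0 : ℤ) ^ d : ℤ) : ℝ) * x - ((m1 p * (p : ℤ) ^ d * t - a1 p : ℤ) : ℝ)|
      ≤ e := by
    have e1 : ((m1 p * (p0 : ℤ) ^ d : ℤ) : ℝ) * x - ((m1 p * (p : ℤ) ^ d * t - a1 p : ℤ) : ℝ)
        = -((m1 p : ℝ) * ((p0 : ℝ) ^ d * α p - (p : ℝ) ^ d * α p0) - a1 p) := by
      rw [hx]
      push_cast
      linear_combination (m1 p : ℝ) * (p : ℝ) ^ d * hβ0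
    rw [e1, abs_neg]
    exact ha1 p hp
  have hm0κ : (m0 : ℝ) ≤ κ ^ 2 := by
    rw [hκ]
    exact_mod_cast hm02
  have hx1 : |((m2 p * m0 * (p1 : ℤ) ^ d : ℤ) : ℝ) * x
      - ((m2 p * (p : ℤ) ^ d * n - m0 * a2 p : ℤ) : ℝ)| ≤ κ * D * (2 * κ * D * e) + κ ^ 2 * e := by
    have e1 : ((m2 p * m0 * (p1 : ℤ) ^ d : ℤ) : ℝ) * x
        - ((m2 p * (p : ℤ) ^ d * n - m0 * a2 p : ℤ) : ℝ)
        = (m2 p : ℝ) * (p : ℝ) ^ d * ((m0 : ℝ) * ((p1 : ℝ) ^ d * β - α p1) - n)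
          - m0 * ((m2 p : ℝ) * ((p1 : ℝ) ^ d * α p - (p : ℝ) ^ d * α p1) - a2 p) := by
      rw [hx]
      push_cast
      ring
    rw [e1]
    have g3 : (m2 p : ℝ) * (p : ℝ) ^ d ≤ κ * D :=
      mul_le_mul (hm2κ p hp) (hpD p (hWP hp)) (by positivity) (by positivity)
    have g5 := abs_mul_le' (by positivity) g3 hβ1
    have g6 := abs_mul_le' (by positivity) hm0κ (ha2 p hp)
    exact (abs_sub _ _).trans (add_le_add g5 g6)
  have hcr := cross (by positivity) (by positivity) hx0 hx1 (by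
    push_cast
    have g1 := hm1κ p hp
    have g2 := hm2κ p hp
    have g3 : (m1 p : ℝ) * (p0 : ℝ) ^ d ≤ κ * D :=
      mul_le_mul g1 (hpD p0 hp0) (by positivity) (by positivity)
    have g4 : (m2 p : ℝ) * m0 * (p1 : ℝ) ^ d ≤ κ * κ ^ 2 * D :=
      mul_le_mul (mul_le_mul g2 hm0κ (by positivity) (by positivity)) (hpD p1 hp1)
        (by positivity) (by positivity)
    have g5 : 0 ≤ κ * D * (2 * κ * D * e) + κ ^ 2 * e := by positivity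
    have g6 := mul_le_mul_of_nonneg_right g3 g5
    have g7 := mul_le_mul_of_nonneg_right g4 he0
    have g8 : κ * κ ^ 2 * D * e + κ * D * (κ * D * (2 * κ * D * e) + κ ^ 2 * e)
        ≤ 4 * κ ^ 3 * D ^ 3 * e := by
      have e2 : κ * κ ^ 2 * D * e + κ * D * (κ * D * (2 * κ * D * e) + κ ^ 2 * e)
        = 2 * κ ^ 3 * D * e + 2 * κ ^ 3 * D ^ 3 * e := by ring
      rw [e2]
      have h10 : D ≤ D ^ 3 := le_self_pow₀ hD1 (by norm_num)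
      have h11 : 2 * κ ^ 3 * D * e ≤ 2 * κ ^ 3 * D ^ 3 * e :=
        mul_le_mul_of_nonneg_right (mul_le_mul_of_nonneg_left h10 (by positivity)) he0
      linarith
    linarith)
  have hm2p : m2 p < p0 := by
    have := hm2' p hp
    omega
  have hdvd : (p0 : ℤ) ^ d ∣ m1 p * (p : ℤ) ^ d * t - a1 p := by
    have h1 : (p0 : ℤ) ^ d ∣ ((m0 : ℤ) * (p1 : ℤ) ^ d)
        * ((m2 p : ℤ) * (m1 p * (p : ℤ) ^ d * t - a1 p)) := by
      refine ⟨m1 p * (m2 p * (p : ℤ) ^ d * n - m0 * a2 p), ?_⟩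
      linear_combination hcr
    have h2 := hcop0.dvd_of_dvd_mul_left h1
    exact (cop_small b0.2 (hm2 p hp) hm2p d).dvd_of_dvd_mul_left h2
  obtain ⟨a, ha⟩ := hdvd
  refine ⟨m1 p, hm1 p hp, hm1' p hp, a, ?_⟩
  rw [← hx, ← he]
  rw [ha] at hx0
  have e1 : ((m1 p * (p0 : ℤ) ^ d : ℤ) : ℝ) * x - (((p0 : ℤ) ^ d * a : ℤ) : ℝ)
      = (p0 : ℝ) ^ d * ((m1 p : ℝ) * x - a) := by
    push_cast
    ring
  rw [e1, abs_mul, abs_of_pos hp0R] at hx0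
  exact (le_mul_of_one_le_left (abs_nonneg _) (hp1' p0 hp0)).trans hx0

end Pool.Agent.Run7.h811.Npp
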